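import Pool.Agent.W_a3c811_h27.STr
import Pool.Agent.W_MP_a3c811_h79.MF.OnlyWM

/-! The trace formula for realisations with cohomology in one degree only. -/

noncomputable section

namespace Pool.Agent.H27P

open Polynomial Module Finset Pool.Agent.WeilH_h6 Pool.Agent.WeilH_h6.VarClass Pool.Agent.H62D
  Pool.Agent.H62A Pool.Agent.H62S

universe u v w

section charpoly

variable {I : Type} {K : I → Type v} [∀ l, Field (K l)] [∀ l, CharZero (K l)] {V : I → Type w}
  [∀ l, AddCommGroup (V l)] [∀ l, Module (K l) (V l)] [∀ l, FiniteDimensional (K l) (V l)]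

/-- rational traces independent of the theory give a rational characteristic polynomial -/
theorem charpolyOn_of_traces (φ : ∀ l, Module.End (K l) (V l)) (U : ∀ l, Submodule (K l) (V l))
    (hst : ∀ l, ∀ x ∈ U l, φ l x ∈ U l) (τ : ℕ → ℚ)
    (h : ∀ l, ∃ e : Module.End (K l) (V l), e * e = e ∧ LinearMap.range e = U l ∧
      ∀ m : ℕ, LinearMap.trace (K l) (V l) (φ l ^ m * e) = (τ m : K l)) :
    ∃ B : ℚ[X], ∀ l, CharpolyOn (φ l) (U l) B := by
  obtain ⟨B, hB⟩ := Pool.Agent.H62A.exists_charpoly (I := I) (K := K) (V := fun l => U l)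
    (fun l => (φ l).restrict (hst l)) τ (by
      intro l m
      obtain ⟨e, h1, hr, h3⟩ := h l
      have hpow : ∀ x ∈ U l, (φ l ^ m) x ∈ U l := by
        intro x hx
        induction m with
        | zero => exact hx
        | succ m ih => rw [pow_succ']; exact hst l _ ih
      have hst' : ∀ x ∈ LinearMap.range e, (φ l ^ m) x ∈ LinearMap.range e := by
        intro x hx
        rw [hr] at hx ⊢
        exact hpow x hx
      have h4 := Pool.Agent.H62A.trace_restrict_range (φ l ^ m) e h1 hst'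
      have key : ∀ (U U' : Submodule (K l) (V l)) (hU : U = U')
          (ψ : Module.End (K l) (V l)) (a : ∀ x ∈ U, ψ x ∈ U) (b : ∀ x ∈ U', ψ x ∈ U'),
          LinearMap.trace (K l) U (ψ.restrict a) = LinearMap.trace (K l) U' (ψ.restrict b) := by
        rintro U _ rfl ψ a b
        rfl
      have h5 : LinearMap.trace (K l) (U l) (((φ l).restrict (hst l)) ^ m) =
          LinearMap.trace (K l) _ ((φ l ^ m).restrict hst') := by
        rw [Module.End.pow_restrict]
        exact key _ _ hr.symm _ _ _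
      rw [h5, h4, h3])
  exact ⟨B, fun l => ⟨hst l, hB l⟩⟩

end charpoly

variable {k : Type u} [Field k] {𝒱 : VarClass k} {I : Type} {K : I → Type v} [∀ l, Field (K l)]
  [∀ l, CharZero (K l)] {W : ∀ l, Weil.{u, v, w} 𝒱 (K l)} {C : MComplex W} (R : Realisation C)

/-- the operator on the complex whose trace is taken -/
def opr (l : I) (w p : ℤ) (m : ℕ) : Module.End (K l) (Tot (W l) C.Y) :=
  (R.F l : Module.End (K l) (Tot (W l) C.Y)) ^ m *
    ((degProj (W l) C.Y C.pos C.tw w : Module.End (K l) (Tot (W l) C.Y)) *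
      posProj (W l) C.Y C.pos p)

lemma F_pow_d (l : I) (m : ℕ) (x : Tot (W l) C.Y) :
    ((R.F l : Module.End (K l) (Tot (W l) C.Y)) ^ m) (C.d l x) =
      C.d l (((R.F l : Module.End (K l) (Tot (W l) C.Y)) ^ m) x) := by
  induction m with
  | zero => rfl
  | succ m ih =>
    rw [pow_succ', Module.End.mul_apply, Module.End.mul_apply, ih, R.F_chain.comm']

lemma opr_d (l : I) (w p : ℤ) (m : ℕ) (x : Tot (W l) C.Y) :
    C.d l (opr R l w p m x) = opr R l (w + 1) (p + 1) m (C.d l x) := by
  unfold opr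
  rw [Module.End.mul_apply, Module.End.mul_apply, Module.End.mul_apply, Module.End.mul_apply,
    ← F_pow_d, d_degProj, d_posProj]

lemma desc_opr (l : I) (w p : ℤ) (m : ℕ) :
    Desc R l (opr R l w p m) ((R.φ l : Module.End (K l) (R.V l)) ^ m *
      (R.pdeg l w * R.ppos l p)) :=
  (Desc.pow R (Desc.phi R l) m).mul R ((R.desc_pdeg l w).mul R (R.desc_ppos l p))

/-- the trace on a graded part of the realisation -/
theorem trace_gr (l : I) (w p : ℤ) (m : ℕ) {h : Module.End (K l) (Tot (W l) C.Y)}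
    (hh : (C.d l : Module.End (K l) (Tot (W l) C.Y)) * h * C.d l = C.d l) :
    LinearMap.trace (K l) _ ((R.e l : Module.End (K l) (Tot (W l) C.Y)) * opr R l w p m *
      ((1 - h * C.d l) - C.d l * h)) =
      LinearMap.trace (K l) (R.V l) ((R.φ l : Module.End (K l) (R.V l)) ^ m *
        (R.pdeg l w * R.ppos l p)) := by
  refine trace_coh (u := R.u l) (C.d_sq' l) hh (fun x => R.e_chain.comm' l x) (R.e_idem l)
    (R.u_surj l) (R.u_ker l) (desc_opr R l w p m).1 ?_ (desc_opr R l w p m).2
  intro x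
  refine ⟨opr R l (w - 1) (p - 1) m x, ?_⟩
  rw [opr_d, sub_add_cancel, sub_add_cancel]

lemma posProj_zero (l : I) {p : ℤ} (hp : ∀ a, C.pos a ≠ p) :
    (posProj (W l) C.Y C.pos p : Module.End (K l) (Tot (W l) C.Y)) = 0 := by
  refine LinearMap.ext fun x => funext fun a => ?_
  have h := posProj_mem (W l) C.Y C.pos p x
  have h2 : posProj (W l) C.Y C.pos p x a ∈
      (if C.pos a = p then ⊤ else ⊥ : Submodule (K l) _) := h a (Set.mem_univ a)
  rw [if_neg (hp a)] at h2
  exact (Submodule.mem_bot _).1 h2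

/-- the motivic endomorphism -/
def oprA (hW : Compatible W) (hK : ∀ a n, KunnethMotivic W (C.Y a) n) (w p : ℤ) (m : ℕ) :
    MA hW C.Y :=
  R.eA hW * ((⟨R.F, R.F_chain.motivic⟩ : MA hW C.Y) ^ m *
    ((⟨fun l => degProj (W l) C.Y C.pos C.tw w, motivic_degProj hK w⟩ : MA hW C.Y) *
      (⟨fun l => posProj (W l) C.Y C.pos p, motivic_posProj hW p⟩ : MA hW C.Y)))

lemma val_oprA (hW : Compatible W) (hK : ∀ a n, KunnethMotivic W (C.Y a) n) (w p : ℤ) (m : ℕ)
    (l : I) : MA.val (oprA R hW hK w p m) l =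
      (R.e l : Module.End (K l) (Tot (W l) C.Y)) * opr R l w p m := by
  rfl

/-- The trace formula: if the realisations have cohomology in degree `n` only, the traces of the
powers of Frobenius on the graded parts are rational and do not depend on the theory. -/
theorem pure_traces (hW : Compatible W) (hK : ∀ a n, KunnethMotivic W (C.Y a) n) (n : ℤ)
    (hp : ∀ l w, w ≠ n → R.deg l w = ⊥) :
    ∃ T : ℤ → ℕ → ℚ, ∀ l p m, LinearMap.trace (K l) (R.V l)
      ((R.φ l : Module.End (K l) (R.V l)) ^ m * (R.pdeg l n * R.ppos l p)) = (T p m : K l) := by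
  classical
  have hbound : ∃ N₀ : ℕ, ∀ a, |C.pos a| < N₀ := by
    refine ⟨(∑ a, |C.pos a|).toNat + 1, fun a => ?_⟩
    have h1 : |C.pos a| ≤ ∑ a, |C.pos a| :=
      single_le_sum (f := fun a => |C.pos a|) (fun _ _ => abs_nonneg _) (mem_univ a)
    have h2 := Int.self_le_toNat (∑ a, |C.pos a|)
    push_cast
    omega
  obtain ⟨N₀, hN₀⟩ := hbound
  have hpd : ∀ l w, w ≠ n → R.pdeg l w = 0 := by
    intro l w hw
    rw [← LinearMap.range_eq_bot, R.range_pdeg, hp l w hw]
  -- the interval of positions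
  let N : ℤ → ℕ := fun p => N₀ + p.natAbs
  refine ⟨fun p m => (-1) ^ (N p + p).toNat * ∑ i ∈ range (2 * N p + 1),
    (-1) ^ i * MA.trace hW hK (oprA R hW hK (n - p + (i - N p : ℤ)) (i - N p : ℤ) m), ?_⟩
  intro l p m
  have hNp : (N p : ℤ) = N₀ + |p| := by
    simp only [N]
    push_cast
    rfl
  have hp1 := neg_abs_le p
  have hp2 := le_abs_self p
  have hp3 := abs_nonneg p
  set M : ℕ := 2 * N p + 1 with hM
  obtain ⟨h, hh⟩ := exists_quasiInverse (C.d l : Module.End (K l) (Tot (W l) C.Y))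
  let T : ℕ → Module.End (K l) (Tot (W l) C.Y) := fun i =>
    (R.e l : Module.End (K l) (Tot (W l) C.Y)) * opr R l (n - p + (i - N p : ℤ)) (i - N p : ℤ) m
  have hT : ∀ i, (C.d l : Module.End (K l) (Tot (W l) C.Y)) * T i = T (i + 1) * C.d l := by
    intro i
    refine LinearMap.ext fun x => ?_
    change C.d l (R.e l (opr R l _ _ m x)) = R.e l (opr R l _ _ m (C.d l x))
    rw [← R.e_chain.comm', opr_d]
    congr 3
    · push_cast
      ring
    · push_cast
      ring
  have hz : ∀ w q : ℤ, (N₀ : ℤ) ≤ |q| → opr R l w q m = 0 := by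
    intro w q hq
    unfold opr
    rw [posProj_zero l (p := q) (fun a ha => by
      have := hN₀ a
      rw [ha] at this
      omega), mul_zero, mul_zero]
  have hT0 : T 0 = 0 := by
    change (R.e l : Module.End (K l) (Tot (W l) C.Y)) * opr R l _ _ m = 0
    rw [hz, mul_zero]
    push_cast
    rw [zero_sub, abs_neg, abs_of_nonneg (by positivity), hNp]
    linarith
  have hTM : T M = 0 := by
    change (R.e l : Module.End (K l) (Tot (W l) C.Y)) * opr R l _ _ m = 0
    rw [hz, mul_zero]
    have h1 : ((M : ℤ) - N p) = N p + 1 := by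
      rw [hM]
      push_cast
      ring
    rw [h1, abs_of_nonneg (by positivity), hNp]
    linarith
  have key := alt_trace (h := h) T hT M hT0 hTM
  -- the right hand side
  set i₀ : ℕ := (N p + p).toNat with hi₀
  have hi₀' : (i₀ : ℤ) = N p + p := by
    rw [hi₀, Int.toNat_of_nonneg]
    rw [hNp]
    linarith [Int.natCast_nonneg N₀]
  have hi₀M : i₀ ∈ range M := by
    rw [mem_range]
    have : (i₀ : ℤ) < M := by
      rw [hi₀', hM]
      push_cast
      rw [hNp]
      linarith [Int.natCast_nonneg N₀]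
    exact_mod_cast this
  have hr : ∀ i ∈ range M, i ≠ i₀ → (-1 : K l) ^ i * LinearMap.trace (K l) _
      (T i * ((1 - h * C.d l) - C.d l * h)) = 0 := by
    intro i _ hi
    have h1 := trace_gr R l (n - p + (i - N p : ℤ)) (i - N p : ℤ) m hh
    change (-1 : K l) ^ i * LinearMap.trace (K l) _
      ((R.e l : Module.End (K l) (Tot (W l) C.Y)) * opr R l (n - p + (i - N p : ℤ))
        (i - N p : ℤ) m * ((1 - h * C.d l) - C.d l * h)) = 0
    rw [h1, hpd l _ (by
      intro h2
      apply hi
      have : (i : ℤ) = i₀ := by rw [hi₀']; linarith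
      exact_mod_cast this), zero_mul, mul_zero, map_zero, mul_zero]
  have hr₀ : LinearMap.trace (K l) _ (T i₀ * ((1 - h * C.d l) - C.d l * h)) =
      LinearMap.trace (K l) (R.V l) ((R.φ l : Module.End (K l) (R.V l)) ^ m *
        (R.pdeg l n * R.ppos l p)) := by
    have h1 := trace_gr R l n p m hh
    have h2 : ((i₀ : ℤ) - N p) = p := by rw [hi₀']; ring
    have h3 : n - p + ((i₀ : ℤ) - N p) = n := by rw [h2]; ring
    change LinearMap.trace (K l) _
      ((R.e l : Module.End (K l) (Tot (W l) C.Y)) * opr R l (n - p + (i₀ - N p : ℤ))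
        (i₀ - N p : ℤ) m * ((1 - h * C.d l) - C.d l * h)) = _
    rw [h3, h2]
    exact h1
  rw [sum_eq_single_of_mem i₀ hi₀M hr, hr₀] at key
  have hl : ∀ i, LinearMap.trace (K l) _ (T i) =
      ((MA.trace hW hK (oprA R hW hK (n - p + (i - N p : ℤ)) (i - N p : ℤ) m) : ℚ) : K l) := by
    intro i
    rw [← MA.trace_spec hW hK _ l, val_oprA]
  have hone : (-1 : K l) ^ i₀ * (-1 : K l) ^ i₀ = 1 := by
    rw [← mul_pow, neg_mul_neg, one_mul, one_pow]
  have key2 : LinearMap.trace (K l) (R.V l) ((R.φ l : Module.End (K l) (R.V l)) ^ m *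
        (R.pdeg l n * R.ppos l p)) =
      (-1 : K l) ^ i₀ * ∑ i ∈ range M, (-1 : K l) ^ i * LinearMap.trace (K l) _ (T i) := by
    rw [key, ← mul_assoc ((-1 : K l) ^ i₀), hone, one_mul]
  rw [key2]
  push_cast
  congr 1
  refine sum_congr rfl fun i _ => ?_
  rw [hl i]

/-- Frobenius and the graded parts. -/
lemma phi_comm (l : I) (w p : ℤ) :
    (R.φ l : Module.End (K l) (R.V l)) * R.pdeg l w = R.pdeg l w * R.φ l ∧
      (R.φ l : Module.End (K l) (R.V l)) * R.ppos l p = R.ppos l p * R.φ l := by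
  constructor
  · refine comm_of_comp R (Desc.phi R l) (R.desc_pdeg l w) (R.desc_pdeg l w) (Desc.phi R l) ?_
    have := comp_degProj (W l) C.Y C.pos C.tw (R.F_chain.bidegree l) w
    rwa [add_zero] at this
  · refine comm_of_comp R (Desc.phi R l) (R.desc_ppos l p) (R.desc_ppos l p) (Desc.phi R l) ?_
    have := comp_posProj (W l) C.Y C.pos C.tw (R.F_chain.bidegree l) p
    rwa [add_zero] at this

lemma pdeg_ppos (l : I) (w p : ℤ) : R.pdeg l w * R.ppos l p = R.ppos l p * R.pdeg l w :=
  comm_of_comp R (R.desc_pdeg l w) (R.desc_ppos l p) (R.desc_ppos l p) (R.desc_pdeg l w)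
    (degProj_comm_posProj _ _ _ _ _ _)

/-- Pure realisations: the characteristic polynomials on the graded parts. -/
theorem pure_gr (hW : Compatible W) (hK : ∀ a n, KunnethMotivic W (C.Y a) n) (n : ℤ)
    (hp : ∀ l w, w ≠ n → R.deg l w = ⊥) (p : ℤ) :
    ∃ A : ℚ[X], ∀ l, CharpolyOn (R.φ l) (R.gr l n p) A := by
  obtain ⟨T, hT⟩ := pure_traces R hW hK n hp
  have idem : ∀ l, (R.pdeg l n * R.ppos l p) * (R.pdeg l n * R.ppos l p) =
      R.pdeg l n * R.ppos l p := by
    intro l
    rw [mul_assoc, ← mul_assoc (R.ppos l p), ← pdeg_ppos, mul_assoc (R.pdeg l n) (R.ppos l p),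
      ppos_idem, ← mul_assoc, pdeg_idem]
  refine charpolyOn_of_traces (fun l => R.φ l) (fun l => R.gr l n p) (fun l x hx => ?_) (T p)
    fun l => ⟨_, idem l, R.range_pgr l n p, fun m => hT l p m⟩
  rw [← R.range_pgr] at hx ⊢
  obtain ⟨y, rfl⟩ := hx
  refine ⟨R.φ l y, ?_⟩
  have h1 : (R.φ l : Module.End (K l) (R.V l)) * (R.pdeg l n * R.ppos l p) =
      (R.pdeg l n * R.ppos l p) * R.φ l := by
    rw [← mul_assoc, (phi_comm R l n p).1, mul_assoc, (phi_comm R l n p).2, mul_assoc]
  exact (LinearMap.congr_fun h1 y).symm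

/-- Pure realisations: the characteristic polynomial of Frobenius, and the one on the inertia
invariants for the theories with weight-monodromy. -/
theorem pure_indep (hW : Compatible W) (hK : ∀ a n, KunnethMotivic W (C.Y a) n) (n : ℤ)
    (hp : ∀ l w, w ≠ n → R.deg l w = ⊥) :
    (∃ A : ℚ[X], ∀ l, CharpolyOn (R.φ l) (R.deg l n) A) ∧
      ∃ B : ℚ[X], ∀ l, R.WeightMonodromy l → CharpolyOn (R.φ l) (R.inv l n) B := by
  classical
  obtain ⟨T, hT⟩ := pure_traces R hW hK n hp
  set P := Finset.univ.image C.pos with hP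
  have hdst : ∀ l, ∀ x ∈ R.deg l n, R.φ l x ∈ R.deg l n := by
    intro l x hx
    rw [← R.range_pdeg] at hx ⊢
    obtain ⟨y, rfl⟩ := hx
    exact ⟨R.φ l y, (LinearMap.congr_fun (phi_comm R l n 0).1 y).symm⟩
  constructor
  · refine charpolyOn_of_traces (fun l => R.φ l) (fun l => R.deg l n) hdst
      (fun m => ∑ p ∈ P, T p m) fun l => ⟨R.pdeg l n, pdeg_idem R l n, R.range_pdeg l n, ?_⟩
    intro m
    have h1 : R.pdeg l n = ∑ p ∈ P, R.pdeg l n * R.ppos l p := by
      rw [← Finset.mul_sum, ppos_sum R l, mul_one]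
    conv_lhs => rw [h1]
    rw [Finset.mul_sum, map_sum, Rat.cast_sum]
    exact sum_congr rfl fun p _ => hT l p m
  · let J := {l : I // R.WeightMonodromy l}
    have hst : ∀ l, ∀ x ∈ R.inv l n, R.φ l x ∈ R.inv l n := by
      rintro l x ⟨hx1, hx2⟩
      refine ⟨hdst l x hx1, ?_⟩
      change R.ν l (R.φ l x) = 0
      have h1 : R.ν l x = 0 := hx2
      rw [R.comm, h1, map_zero, smul_zero]
    obtain ⟨B, hB⟩ := charpolyOn_of_traces (I := J) (K := fun l => K l.1)
      (V := fun l => R.V l.1) (fun l => R.φ l.1) (fun l => R.inv l.1 n) (fun l => hst l.1)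
      (fun m => ∑ p ∈ P.filter fun p => 0 ≤ p, (T p m - R.q ^ m * T (p + 2) m)) (by
        rintro ⟨l, hl⟩
        have νg : (R.ν l : Module.End (K l) (R.V l)) * R.pdeg l n = R.pdeg l n * R.ν l := by
          refine comm_of_comp R (Desc.nu R l) (R.desc_pdeg l n) (R.desc_pdeg l n)
            (Desc.nu R l) ?_
          have := comp_degProj (W l) C.Y C.pos C.tw (R.N_chain.bidegree l) n
          rwa [add_zero] at this
        have νs : ∀ p, (R.ν l : Module.End (K l) (R.V l)) * R.ppos l p =
            R.ppos l (p + 2) * R.ν l := fun p =>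
          comm_of_comp R (Desc.nu R l) (R.desc_ppos l p) (R.desc_ppos l (p + 2)) (Desc.nu R l)
            (comp_posProj (W l) C.Y C.pos C.tw (R.N_chain.bidegree l) p)
        have νφ : (R.ν l : Module.End (K l) (R.V l)) * R.φ l =
            (R.q : K l) • ((R.φ l : Module.End (K l) (R.V l)) * R.ν l) :=
          LinearMap.ext fun y => R.comm l y
        have hwm : ∀ i : ℕ, Set.BijOn ((R.ν l : Module.End (K l) (R.V l)) ^ i)
            (LinearMap.range (R.pdeg l n * R.ppos l (-i)))
            (LinearMap.range (R.pdeg l n * R.ppos l i)) := by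
          intro i
          rw [R.range_pgr, R.range_pgr]
          exact hl n i
        obtain ⟨ee, h1, h2, h3⟩ := trace_inv (pdeg_idem R l n) (ppos_idem R l) (ppos_sum R l)
          (pdeg_ppos R l n) (phi_comm R l n 0).1 (fun p => (phi_comm R l n p).2) νg νs νφ hwm
        refine ⟨ee, h1, ?_, fun m => ?_⟩
        · rw [h2, R.range_pdeg]
          rfl
        · rw [h3 m, Rat.cast_sum]
          refine Finset.sum_congr rfl fun p _ => ?_
          rw [hT l, hT l]
          push_cast
          rfl)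
    exact ⟨B, fun l hl => hB ⟨l, hl⟩⟩

end Pool.Agent.H27P
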