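import Pool.Agent.W_MP_a3c811_h79.MF.TrInv

/-! The alternating sum of the traces on a complex and on its cohomology. -/

noncomputable section

namespace Pool.Agent.H27P

open Module Finset

universe v w

variable {K : Type v} [Field K] {E : Type w} [AddCommGroup E] [Module K E]

/-- the alternating sum of traces of a family `T i` with `d T_i = T_(i+1) d`, `T_0 = T_M = 0`, in
terms of the projectors `1 - h d` onto the cocycles and `d h` onto the coboundaries -/
theorem alt_trace {d h : Module.End K E} (T : ℕ → Module.End K E)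
    (hT : ∀ i, d * T i = T (i + 1) * d) (M : ℕ) (h0 : T 0 = 0) (hM : T M = 0) :
    ∑ i ∈ range M, (-1 : K) ^ i * LinearMap.trace K E (T i) =
      ∑ i ∈ range M, (-1 : K) ^ i * LinearMap.trace K E (T i * ((1 - h * d) - d * h)) := by
  have h1 : ∀ i, LinearMap.trace K E (T i) = LinearMap.trace K E (T i * (1 - h * d)) +
      LinearMap.trace K E (T (i + 1) * (d * h)) := by
    intro i
    have h2 : LinearMap.trace K E (T (i + 1) * (d * h)) = LinearMap.trace K E (T i * (h * d)) := by
      rw [← mul_assoc, ← hT, mul_assoc, LinearMap.trace_mul_comm, mul_assoc]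
    rw [h2, ← map_add, ← mul_add]
    congr 2
    rw [sub_add_cancel, mul_one]
  have h3 : ∀ i, (-1 : K) ^ i * LinearMap.trace K E (T i) =
      (-1 : K) ^ i * LinearMap.trace K E (T i * (1 - h * d)) -
        (-1 : K) ^ (i + 1) * LinearMap.trace K E (T (i + 1) * (d * h)) := by
    intro i
    rw [h1 i, pow_succ]
    ring
  have h4 : ∑ i ∈ range M, (-1 : K) ^ (i + 1) * LinearMap.trace K E (T (i + 1) * (d * h)) =
      ∑ i ∈ range M, (-1 : K) ^ i * LinearMap.trace K E (T i * (d * h)) := by
    have h5 := sum_range_succ (fun i => (-1 : K) ^ i * LinearMap.trace K E (T i * (d * h))) M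
    have h6 := sum_range_succ' (fun i => (-1 : K) ^ i * LinearMap.trace K E (T i * (d * h))) M
    rw [h6] at h5
    simp only [h0, hM, zero_mul, map_zero, mul_zero, add_zero] at h5
    exact h5
  rw [sum_congr rfl fun i _ => h3 i, sum_sub_distrib, h4, ← sum_sub_distrib]
  refine sum_congr rfl fun i _ => ?_
  rw [← mul_sub, ← map_sub, ← mul_sub]

variable [FiniteDimensional K E] {V : Type w} [AddCommGroup V] [Module K V]
  [FiniteDimensional K V]

/-- The trace of `e A` on the cohomology of `d` is the trace of the operator induced by `A` on the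
image `V` of `e` in the cohomology. -/
theorem trace_coh {d h e A : Module.End K E} {u : E →ₗ[K] V} {Φ : Module.End K V}
    (hd : ∀ x, d (d x) = 0) (hh : d * h * d = d) (ed : ∀ x, e (d x) = d (e x))
    (idem : ∀ x, d x = 0 → e (e x) - e x ∈ LinearMap.range d)
    (surj : ∀ y, ∃ x, d x = 0 ∧ u x = y)
    (ker : ∀ x, d x = 0 → (u x = 0 ↔ e x ∈ LinearMap.range d))
    (hA : ∀ x, d x = 0 → d (A x) = 0) (hAr : ∀ x, ∃ y, A (d x) = d y)
    (hu : ∀ x, d x = 0 → u (A x) = Φ (u x)) :
    LinearMap.trace K E (e * A * ((1 - h * d) - d * h)) = LinearMap.trace K V Φ := by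
  set z : Module.End K E := 1 - h * d with hz
  set b : Module.End K E := d * h with hb
  have dd : d * d = 0 := LinearMap.ext hd
  have zz : z * z = z := by
    rw [hz, mul_sub, mul_one, sub_mul, one_mul]
    have : h * d * (h * d) = h * d := by rw [mul_assoc, ← mul_assoc d, hh]
    rw [this, sub_self, sub_zero]
  have zb : z * b = b := by
    rw [hz, hb, sub_mul, one_mul]
    have : h * d * (d * h) = 0 := by rw [mul_assoc, ← mul_assoc d, dd, zero_mul, mul_zero]
    rw [this, sub_zero]
  have dz : ∀ x, d (z x) = 0 := by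
    intro x
    have h1 : d * z = 0 := by rw [hz, mul_sub, mul_one, ← mul_assoc, hh, sub_self]
    exact LinearMap.congr_fun h1 x
  have zc : ∀ x, d x = 0 → z x = x := by
    intro x hx
    change x - h (d x) = x
    rw [hx, map_zero, sub_zero]
  have bc : ∀ x, b (d x) = d x := fun x => LinearMap.congr_fun hh x
  have bd : ∀ x, ∃ y, b x = d y := fun x => ⟨h x, rfl⟩
  -- a section
  have hs : Function.Surjective (u ∘ₗ (LinearMap.ker d).subtype) := by
    intro y
    obtain ⟨x, hx, hy⟩ := surj y
    exact ⟨⟨x, hx⟩, hy⟩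
  obtain ⟨σ', hσ'⟩ := (u ∘ₗ (LinearMap.ker d).subtype).exists_rightInverse_of_surjective
    (LinearMap.range_eq_top.2 hs)
  set σ : V →ₗ[K] E := (LinearMap.ker d).subtype ∘ₗ σ' with hσ
  have dσ : ∀ y, d (σ y) = 0 := fun y => (σ' y).2
  have uσ : ∀ y, u (σ y) = y := fun y => LinearMap.congr_fun hσ' y
  have de : ∀ x, d x = 0 → d (e x) = 0 := by
    intro x hx
    rw [← ed, hx, map_zero]
  have ue : ∀ x, d x = 0 → u (e x) = u x := by
    intro x hx
    have h1 : u (e x - x) = 0 := by
      rw [ker _ (by rw [map_sub, de x hx, hx, sub_zero]), map_sub]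
      exact idem x hx
    rwa [map_sub, sub_eq_zero] at h1
  have uB : ∀ x, u (d x) = 0 := by
    intro x
    rw [ker _ (hd x), ed]
    exact ⟨_, rfl⟩
  -- the operator `G`
  set G : Module.End K E := (e - e * (σ ∘ₗ u)) * A with hG
  have GB : ∀ x, d x = 0 → ∃ y, G x = d y := by
    intro x hx
    have h1 : u (A x - σ (u (A x))) = 0 := by rw [map_sub, uσ, sub_self]
    have h2 : d (A x - σ (u (A x))) = 0 := by rw [map_sub, hA x hx, dσ, sub_zero]
    obtain ⟨y, hy⟩ := (ker _ h2).1 h1
    refine ⟨y, ?_⟩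
    rw [hy, map_sub]
    rfl
  have e1 : e * A = e * (σ ∘ₗ u) * A + G := by
    rw [hG, sub_mul]
    abel
  have e2 : LinearMap.trace K E (G * (z - b)) = 0 := by
    have h1 : z * (z - b) = z - b := by rw [mul_sub, zz, zb]
    have h2 : (z - b) * (G * z) = 0 := by
      refine LinearMap.ext fun x => ?_
      obtain ⟨y, hy⟩ := GB (z x) (dz x)
      change z (G (z x)) - b (G (z x)) = 0
      rw [hy, bc, zc _ (hd y), sub_self]
    calc LinearMap.trace K E (G * (z - b)) = LinearMap.trace K E (G * z * (z - b)) := by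
          rw [mul_assoc G z, h1]
      _ = LinearMap.trace K E ((z - b) * (G * z)) := LinearMap.trace_mul_comm _ _ _
      _ = 0 := by rw [h2, map_zero]
  have e3 : e * (σ ∘ₗ u) * A * b = 0 := by
    refine LinearMap.ext fun x => ?_
    obtain ⟨y, hy⟩ := bd x
    obtain ⟨y', hy'⟩ := hAr y
    change e (σ (u (A (b x)))) = 0
    rw [hy, hy', uB, map_zero, map_zero]
  rw [e1, add_mul, map_add, e2, add_zero, mul_sub, e3, sub_zero]
  have e4 : e * (σ ∘ₗ u) * A * z = (e ∘ₗ σ) ∘ₗ (u ∘ₗ (A * z)) := rfl
  rw [e4, LinearMap.trace_comp_comm']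
  congr 1
  refine LinearMap.ext fun y => ?_
  change u (A (z (e (σ y)))) = Φ y
  rw [zc _ (de _ (dσ y)), hu _ (de _ (dσ y)), ue _ (dσ y), uσ]

end Pool.Agent.H27P
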